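import Mathlib

/-!
# The theory of the integers with the square-free predicate is not MS-measurable

`Lang` is the language of the problem, `intStructure` the structure on `ℤ`, and `MSMeasurable M`
says that a structure `M` is MS-measurable in the sense of Macpherson and Steinhorn.

In a model `M` of the theory, `x ↦ x + x` is a definable bijection from `M` onto the subgroup `2M`,
and `M` is the disjoint union of `2M` and `2M + 1`. Fubini gives the finite additivity of `h` and
its invariance under definable bijections, so that `h(M) = (d, μ)` would satisfy `μ = 2 μ`, `μ > 0`.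
-/

set_option autoImplicit false

universe u

namespace Pool.Agent.Results.MP_c6a6a6_lc.NotMeasurable

open FirstOrder FirstOrder.Language

/-- Function symbols: the constant `1`, the unary `-` and the binary `+`. -/
inductive Fn : ℕ → Type
  | one : Fn 0
  | neg : Fn 1
  | add : Fn 2

/-- Relation symbols: `P m` for `m ≥ 1` and `U p l` for a prime `p` and an integer `l`. -/
inductive Rl : ℕ → Type
  | P (m : ℕ) (hm : 1 ≤ m) : Rl 1
  | U (p : ℕ) (hp : p.Prime) (l : ℤ) : Rl 1

/-- The language `{+, -, 1, (P_m), (U_{p,l})}`. -/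
abbrev Lang : FirstOrder.Language.{0, 0} := ⟨Fn, Rl⟩

/-- `P_m = {a : v_p(a) < 2 + v_p(m) for all primes p}`, with `v_p(0) = ∞`. -/
def setP (m : ℕ) : Set ℤ :=
  {a | ∀ p : ℕ, p.Prime → emultiplicity (p : ℤ) a < 2 + emultiplicity (p : ℤ) (m : ℤ)}

/-- `U_{p,l} = {a : v_p(a) ≥ l}` (no condition if `l ≤ 0`). -/
def setU (p : ℕ) (l : ℤ) : Set ℤ := {a | l ≤ 0 ∨ (l.toNat : ℕ∞) ≤ emultiplicity (p : ℤ) a}

/-- The structure on the integers. -/
instance intStructure : Lang.Structure ℤ where
  funMap := fun {_} f v => match f with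
    | Fn.one => 1
    | Fn.neg => - v 0
    | Fn.add => v 0 + v 1
  RelMap := fun {_} r v => match r with
    | Rl.P m _ => v 0 ∈ setP m
    | Rl.U p _ l => v 0 ∈ setU p l

/-- Definable with parameters. -/
abbrev Def (L : FirstOrder.Language.{0, 0}) {M : Type u} [L.Structure M] {α : Type}
    (X : Set (α → M)) : Prop :=
  (Set.univ : Set M).Definable L X

/-- MS-measurability of the structure `M`. The function `h` is only used for definable subsets of
`M^n`, `n ≥ 1`. -/
def MSMeasurable (L : FirstOrder.Language.{0, 0}) (M : Type u) [L.Structure M] : Prop :=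
  ∃ h : ∀ n : ℕ, Set (Fin n → M) → ℕ × ℝ,
    -- the values are in `(ℕ × ℝ_{>0}) ∪ {(0,0)}`
    (∀ n, 1 ≤ n → ∀ X : Set (Fin n → M), Def L X → 0 < (h n X).2 ∨ h n X = (0, 0)) ∧
    -- condition 1
    (∀ n k : ℕ, 1 ≤ n → ∀ φ : L.Formula (Fin n ⊕ Fin k),
      (Set.range fun b : Fin k → M => h n {x | φ.Realize (Sum.elim x b)}).Finite ∧
      ∀ z : ℕ × ℝ, (∅ : Set M).Definable L
        {b : Fin k → M | h n {x | φ.Realize (Sum.elim x b)} = z}) ∧
    -- condition 2
    (∀ n, 1 ≤ n → ∀ X : Set (Fin n → M), X.Finite → h n X = (0, (X.ncard : ℝ))) ∧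
    -- condition 3: `f : X → Y` is a definable surjection
    (∀ n m, 1 ≤ n → 1 ≤ m → ∀ (X : Set (Fin n → M)) (Y : Set (Fin m → M))
      (f : (Fin n → M) → (Fin m → M)), Def L X → Def L Y →
      Def L {v : Fin n ⊕ Fin m → M | v ∘ Sum.inl ∈ X ∧ f (v ∘ Sum.inl) = v ∘ Sum.inr} →
      f '' X = Y →
      ∃ (r : ℕ) (P : Fin r → Set (Fin m → M)) (d : Fin r → ℕ) (μ : Fin r → ℝ),
        (∀ i, Def L (P i)) ∧ (∀ i, (P i).Nonempty) ∧ (∀ i j, i ≠ j → Disjoint (P i) (P j)) ∧
        (⋃ i, P i) = Y ∧
        (∀ i, ∀ y ∈ P i, h n {x | x ∈ X ∧ f x = y} = (d i, μ i)) ∧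
        h n X = (Finset.univ.sup fun i => d i + (h m (P i)).1,
          ∑ i with d i + (h m (P i)).1 = Finset.univ.sup fun j => d j + (h m (P j)).1,
            μ i * (h m (P i)).2))

/-! ### Leading terms -/

/-- the leading term of the sum of the terms `μ i * t ^ (d i)` -/
noncomputable def top {ι : Type*} (s : Finset ι) (g : ι → ℕ × ℝ) : ℕ × ℝ :=
  (s.sup fun i => (g i).1, ∑ i ∈ s with (g i).1 = s.sup fun j => (g j).1, (g i).2)

theorem top_congr {ι : Type*} {s : Finset ι} {g g' : ι → ℕ × ℝ} (h : ∀ i ∈ s, g i = g' i) :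
    top s g = top s g' := by
  have h1 : (s.sup fun i => (g i).1) = s.sup fun i => (g' i).1 :=
    Finset.sup_congr rfl fun i hi => by rw [h i hi]
  unfold top
  rw [h1]
  congr 1
  refine Finset.sum_congr ?_ fun i hi => by rw [h i (Finset.mem_filter.1 hi).1]
  ext i
  simp only [Finset.mem_filter]
  constructor
  · rintro ⟨h2, h3⟩
    exact ⟨h2, by rw [← h i h2]; exact h3⟩
  · rintro ⟨h2, h3⟩
    exact ⟨h2, by rw [h i h2]; exact h3⟩

/-- regrouping -/
theorem top_fiberwise {ι κ : Type*} [DecidableEq κ] (s : Finset ι) (t : Finset κ) (p : ι → κ)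
    (hp : ∀ i ∈ s, p i ∈ t) (g : ι → ℕ × ℝ) :
    top s g = top t fun j => top (s.filter fun i => p i = j) g := by
  have h1 : (s.sup fun i => (g i).1) = t.sup fun j => (s.filter fun i => p i = j).sup
      fun i => (g i).1 := by
    apply le_antisymm
    · refine Finset.sup_le fun i hi => ?_
      refine le_trans ?_ (Finset.le_sup (hp i hi))
      exact Finset.le_sup (f := fun i => (g i).1) (Finset.mem_filter.2 ⟨hi, rfl⟩)
    · refine Finset.sup_le fun j _ => Finset.sup_le fun i hi => ?_
      exact Finset.le_sup (f := fun i => (g i).1) (Finset.mem_filter.1 hi).1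
  unfold top
  simp only
  rw [← h1]
  congr 1
  rw [← Finset.sum_fiberwise_of_maps_to (s := s.filter _) (t := t) (g := p)
    (fun i hi => hp i (Finset.mem_filter.1 hi).1)]
  rw [Finset.sum_filter]
  refine Finset.sum_congr rfl fun j hj => ?_
  split_ifs with h2
  · refine Finset.sum_congr ?_ fun _ _ => rfl
    ext i
    simp only [Finset.mem_filter, h2]
    tauto
  · refine Finset.sum_eq_zero fun i hi => ?_
    exfalso
    simp only [Finset.mem_filter] at hi
    obtain ⟨⟨h3, h4⟩, h5⟩ := hi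
    apply h2
    apply le_antisymm
    · rw [h1]
      exact Finset.le_sup (f := fun j => (s.filter fun i => p i = j).sup fun i => (g i).1) hj
    · rw [← h4]
      exact Finset.le_sup (f := fun i => (g i).1) (Finset.mem_filter.2 ⟨h3, h5⟩)

theorem top_const {ι : Type*} {s : Finset ι} (hs : s.Nonempty) (d : ℕ) (μ : ℝ) :
    top s (fun _ => (d, μ)) = (d, s.card * μ) := by
  unfold top
  simp only [Finset.sup_const hs]
  simp

section

variable {L : FirstOrder.Language.{0, 0}} {M : Type u} [L.Structure M]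

/-- the properties of `h` that are used -/
structure Good (L : FirstOrder.Language.{0, 0}) (M : Type u) [L.Structure M]
    (h : ∀ n : ℕ, Set (Fin n → M) → ℕ × ℝ) : Prop where
  pos : ∀ n, 1 ≤ n → ∀ X : Set (Fin n → M), Def L X → 0 < (h n X).2 ∨ h n X = (0, 0)
  fin : ∀ n, 1 ≤ n → ∀ X : Set (Fin n → M), X.Finite → h n X = (0, (X.ncard : ℝ))
  fub : ∀ n m, 1 ≤ n → 1 ≤ m → ∀ (X : Set (Fin n → M)) (Y : Set (Fin m → M))
      (f : (Fin n → M) → (Fin m → M)), Def L X → Def L Y →
      Def L {v : Fin n ⊕ Fin m → M | v ∘ Sum.inl ∈ X ∧ f (v ∘ Sum.inl) = v ∘ Sum.inr} →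
      f '' X = Y →
      ∃ (r : ℕ) (P : Fin r → Set (Fin m → M)) (d : Fin r → ℕ) (μ : Fin r → ℝ),
        (∀ i, Def L (P i)) ∧ (∀ i, (P i).Nonempty) ∧ (∀ i j, i ≠ j → Disjoint (P i) (P j)) ∧
        (⋃ i, P i) = Y ∧
        (∀ i, ∀ y ∈ P i, h n {x | x ∈ X ∧ f x = y} = (d i, μ i)) ∧
        h n X = (Finset.univ.sup fun i => d i + (h m (P i)).1,
          ∑ i with d i + (h m (P i)).1 = Finset.univ.sup fun j => d j + (h m (P j)).1,
            μ i * (h m (P i)).2)

variable {h : ∀ n : ℕ, Set (Fin n → M) → ℕ × ℝ}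

/-- Fubini for a map with a finite image -/
theorem Good.finite_image (H : Good L M h) {n m : ℕ} (hn : 1 ≤ n) (hm : 1 ≤ m)
    {X : Set (Fin n → M)} (Y : Finset (Fin m → M))
    {f : (Fin n → M) → (Fin m → M)} (hX : Def L X) (hY : Def L (Y : Set (Fin m → M)))
    (hf : Def L {v : Fin n ⊕ Fin m → M | v ∘ Sum.inl ∈ X ∧ f (v ∘ Sum.inl) = v ∘ Sum.inr})
    (hfs : f '' X = Y) :
    h n X = (Y.sup fun y => (h n {x | x ∈ X ∧ f x = y}).1,
      ∑ y ∈ Y with (h n {x | x ∈ X ∧ f x = y}).1 =
        Y.sup fun y => (h n {x | x ∈ X ∧ f x = y}).1, (h n {x | x ∈ X ∧ f x = y}).2) := by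
  classical
  obtain ⟨r, P, d, μ, h1, h2, h3, h4, h5, h6⟩ := H.fub n m hn hm X Y f hX hY hf hfs
  have hPf : ∀ i, (P i).Finite := fun i => (Y.finite_toSet).subset (by
    rw [← h4]; exact Set.subset_iUnion P i)
  have hP : ∀ i, h m (P i) = (0, ((P i).ncard : ℝ)) := fun i => H.fin m hm _ (hPf i)
  have hidx : ∀ y : Y, ∃ i, (y : Fin m → M) ∈ P i := by
    intro y
    have : (y : Fin m → M) ∈ ⋃ i, P i := by rw [h4]; exact y.2
    simpa using this
  choose p hp using hidx
  have hu : ∀ (y : Y) i, (y : Fin m → M) ∈ P i → p y = i := by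
    intro y i hi
    by_contra hne
    exact Set.disjoint_left.1 (h3 _ _ hne) (hp y) hi
  have key := top_fiberwise (Finset.univ : Finset Y) (Finset.univ : Finset (Fin r)) p
    (fun _ _ => Finset.mem_univ _) (fun y => h n {x | x ∈ X ∧ f x = y})
  have h7 : (top (Finset.univ : Finset (Fin r)) fun j =>
      top ((Finset.univ : Finset Y).filter fun i => p i = j)
        (fun y => h n {x | x ∈ X ∧ f x = y})) =
      top (Finset.univ : Finset (Fin r)) fun i => (d i + (h m (P i)).1, μ i * (h m (P i)).2) := by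
    refine top_congr fun i _ => ?_
    rw [top_congr (g' := fun _ => (d i, μ i)) ?_, top_const]
    · rw [hP i]
      simp only [add_zero, mul_comm]
      congr 2
      have : ((Finset.univ : Finset Y).filter fun j => p j = i).card = (P i).ncard := by
        rw [← Set.ncard_coe_finset, ← Set.ncard_image_of_injective (f := fun y : Y =>
          (y : Fin m → M)) _ Subtype.val_injective]
        congr 1
        ext y
        simp only [Finset.coe_filter, Finset.mem_univ, true_and, Set.mem_image, Set.mem_ofPred_eq]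
        constructor
        · rintro ⟨z, hz, rfl⟩
          rw [← hz]; exact hp z
        · intro hy
          have hyY : y ∈ Y := by
            have : y ∈ ⋃ i, P i := Set.mem_iUnion.2 ⟨i, hy⟩
            rw [h4] at this
            exact this
          exact ⟨⟨y, hyY⟩, hu ⟨y, hyY⟩ i hy, rfl⟩
      rw [this]
    · obtain ⟨y, hy⟩ := h2 i
      have hyY : y ∈ Y := by
        have : y ∈ ⋃ i, P i := Set.mem_iUnion.2 ⟨i, hy⟩
        rw [h4] at this
        exact this
      exact ⟨⟨y, hyY⟩, by simp [hu ⟨y, hyY⟩ i hy]⟩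
    · intro y hy
      simp only [Finset.mem_filter, Finset.mem_univ, true_and] at hy
      exact h5 i y (hy ▸ hp y)
  have h8 : h n X = top (Finset.univ : Finset Y) (fun y => h n {x | x ∈ X ∧ f x = y}) := by
    rw [key, h7, h6]
    rfl
  rw [h8]
  unfold top
  have h9 : (Finset.univ.sup fun i : Y => (h n {x | x ∈ X ∧ f x = (i : Fin m → M)}).1) =
      Y.sup fun y => (h n {x | x ∈ X ∧ f x = y}).1 := by
    rw [← Finset.sup_attach Y]
    rfl
  rw [h9]
  congr 1
  rw [Finset.sum_filter, Finset.sum_filter]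
  exact Finset.sum_coe_sort Y (fun y => if (h n {x | x ∈ X ∧ f x = y}).1 =
        Y.sup fun y => (h n {x | x ∈ X ∧ f x = y}).1 then (h n {x | x ∈ X ∧ f x = y}).2 else 0)

/-- the sum of two leading terms -/
noncomputable def comb (a b : ℕ × ℝ) : ℕ × ℝ :=
  if a.1 < b.1 then b else if b.1 < a.1 then a else (a.1, a.2 + b.2)

theorem def_singleton {n : ℕ} (c : Fin n → M) : Def L ({c} : Set (Fin n → M)) := by
  have h1 : ({c} : Set (Fin n → M)) = ⋂ i, {v | v i = c i} := by
    ext v
    simp [funext_iff]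
  rw [h1]
  refine Set.definable_iInter_of_finite fun i => ?_
  exact Set.DefinableFun.ofPred_eq_const (Set.DefinableFun.proj L) (Set.mem_univ _)

theorem Good.add (H : Good L M h) {c₀ c₁ : M} (hc : c₀ ≠ c₁) {n : ℕ} (hn : 1 ≤ n)
    {A B : Set (Fin n → M)} (hA : Def L A) (hB : Def L B) (hAB : Disjoint A B)
    (hA0 : A.Nonempty) (hB0 : B.Nonempty) : h n (A ∪ B) = comb (h n A) (h n B) := by
  classical
  set c : Fin 1 → M := fun _ => c₀ with hcdef
  set c' : Fin 1 → M := fun _ => c₁ with hcdef'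
  have hcc : c ≠ c' := fun e => hc (congrFun e 0)
  let f : (Fin n → M) → (Fin 1 → M) := fun x => if x ∈ A then c else c'
  have hfA : ∀ x ∈ A, f x = c := fun x hx => if_pos hx
  have hfB : ∀ x ∈ B, f x = c' := fun x hx => if_neg fun h => Set.disjoint_left.1 hAB h hx
  have e1 : {x | x ∈ A ∪ B ∧ f x = c} = A := by
    ext x
    constructor
    · rintro ⟨h1 | h1, h2⟩
      · exact h1
      · rw [hfB x h1] at h2
        exact absurd h2.symm hcc
    · intro hx
      exact ⟨Or.inl hx, hfA x hx⟩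
  have e2 : {x | x ∈ A ∪ B ∧ f x = c'} = B := by
    ext x
    constructor
    · rintro ⟨h1 | h1, h2⟩
      · rw [hfA x h1] at h2
        exact absurd h2 hcc
      · exact h1
    · intro hx
      exact ⟨Or.inr hx, hfB x hx⟩
  have key := H.finite_image (m := 1) hn le_rfl ({c, c'} : Finset (Fin 1 → M)) (X := A ∪ B)
    (f := f) (hA.union hB) ?_ ?_ ?_
  · rw [key]
    simp only [Finset.sup_insert, Finset.sup_singleton]
    rw [e1, e2, Finset.sum_filter, Finset.sum_pair hcc, e1, e2]
    unfold comb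
    rcases lt_trichotomy (h n A).1 (h n B).1 with h1 | h1 | h1
    · rw [if_pos h1, max_eq_right h1.le, if_neg h1.ne, if_pos rfl, zero_add]
    · rw [h1]
      simp
    · rw [max_eq_left h1.le, if_pos rfl, if_neg h1.ne, add_zero, if_neg (lt_asymm h1), if_pos h1]
  · have : (({c, c'} : Finset (Fin 1 → M)) : Set (Fin 1 → M)) = {c} ∪ {c'} := by
      ext y
      simp only [Finset.coe_insert, Finset.coe_singleton, Set.mem_insert_iff,
        Set.mem_singleton_iff, Set.mem_union]
    rw [this]
    exact (def_singleton c).union (def_singleton c')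
  · have : {v : Fin n ⊕ Fin 1 → M | v ∘ Sum.inl ∈ A ∪ B ∧ f (v ∘ Sum.inl) = v ∘ Sum.inr} =
        ({v | v ∘ Sum.inl ∈ A} ∩ {v | v ∘ Sum.inr ∈ ({c} : Set (Fin 1 → M))}) ∪
        ({v | v ∘ Sum.inl ∈ B} ∩ {v | v ∘ Sum.inr ∈ ({c'} : Set (Fin 1 → M))}) := by
      ext v
      constructor
      · rintro ⟨h1 | h1, h2⟩
        · left
          refine ⟨h1, ?_⟩
          rw [hfA _ h1] at h2
          exact h2.symm
        · right
          refine ⟨h1, ?_⟩
          rw [hfB _ h1] at h2
          exact h2.symm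
      · rintro (⟨h1, h2⟩ | ⟨h1, h2⟩)
        · exact ⟨Or.inl h1, by rw [hfA _ h1]; exact (Set.mem_singleton_iff.1 h2).symm⟩
        · exact ⟨Or.inr h1, by rw [hfB _ h1]; exact (Set.mem_singleton_iff.1 h2).symm⟩
    rw [this]
    exact ((hA.preimage_comp Sum.inl).inter ((def_singleton c).preimage_comp Sum.inr)).union
      ((hB.preimage_comp Sum.inl).inter ((def_singleton c').preimage_comp Sum.inr))
  · ext y
    simp only [Set.mem_image, Finset.coe_insert, Finset.coe_singleton, Set.mem_insert_iff,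
      Set.mem_singleton_iff]
    constructor
    · rintro ⟨x, h1 | h1, rfl⟩
      · exact Or.inl (hfA x h1)
      · exact Or.inr (hfB x h1)
    · rintro (rfl | rfl)
      · obtain ⟨x, hx⟩ := hA0
        exact ⟨x, Or.inl hx, hfA x hx⟩
      · obtain ⟨x, hx⟩ := hB0
        exact ⟨x, Or.inr hx, hfB x hx⟩

theorem top_insert_comb {ι : Type*} [DecidableEq ι] {s : Finset ι} {a : ι} (ha : a ∉ s)
    (g : ι → ℕ × ℝ) : top (insert a s) g = comb (g a) (top s g) := by
  unfold top comb
  simp only [Finset.sup_insert]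
  rcases lt_trichotomy (g a).1 (s.sup fun i => (g i).1) with h1 | h1 | h1
  · rw [if_pos h1]
    have h2 : (g a).1 ⊔ (s.sup fun i => (g i).1) = s.sup fun i => (g i).1 := max_eq_right h1.le
    rw [h2, Finset.filter_insert, if_neg h1.ne]
  · rw [if_neg (by omega), if_neg (by omega)]
    have h2 : (g a).1 ⊔ (s.sup fun i => (g i).1) = s.sup fun i => (g i).1 := max_eq_right h1.le
    rw [h2, Finset.filter_insert, if_pos h1, Finset.sum_insert (by simp [ha]), h1]
  · rw [if_neg (by omega), if_pos h1]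
    have h2 : (g a).1 ⊔ (s.sup fun i => (g i).1) = (g a).1 := max_eq_left h1.le
    rw [h2, Finset.filter_insert, if_pos rfl]
    have h3 : s.filter (fun i => (g i).1 = (g a).1) = ∅ := by
      rw [Finset.filter_eq_empty_iff]
      intro i hi h4
      have h5 : (g i).1 ≤ s.sup fun i => (g i).1 := Finset.le_sup (f := fun i => (g i).1) hi
      omega
    rw [h3]
    simp

/-- finite additivity -/
theorem Good.iUnion (H : Good L M h) {c₀ c₁ : M} (hc : c₀ ≠ c₁) {n : ℕ} (hn : 1 ≤ n)
    {r : ℕ} (P : Fin r → Set (Fin n → M)) (hP : ∀ i, Def L (P i)) (hP0 : ∀ i, (P i).Nonempty)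
    (hd : ∀ i j, i ≠ j → Disjoint (P i) (P j)) (s : Finset (Fin r)) (hs : s.Nonempty) :
    h n (⋃ i ∈ s, P i) = top s fun i => h n (P i) := by
  classical
  induction hs using Finset.Nonempty.cons_induction with
  | singleton a =>
    unfold top
    simp [Finset.sum_filter]
  | cons a s ha hs ih =>
    rw [Finset.cons_eq_insert, top_insert_comb ha, ← ih]
    rw [← H.add hc hn (hP a) ?_ ?_ (hP0 a) ?_]
    · congr 1
      ext x
      simp
    · exact Set.definable_biUnion_finset hP s
    · rw [Set.disjoint_left]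
      intro x hx hx'
      simp only [Set.mem_iUnion] at hx'
      obtain ⟨j, hj, hxj⟩ := hx'
      exact Set.disjoint_left.1 (hd a j (fun e => ha (e ▸ hj))) hx hxj
    · obtain ⟨j, hj⟩ := hs
      obtain ⟨x, hx⟩ := hP0 j
      exact ⟨x, by simp only [Set.mem_iUnion]; exact ⟨j, hj, hx⟩⟩

/-- invariance under definable bijections -/
theorem Good.bij (H : Good L M h) {c₀ c₁ : M} (hc : c₀ ≠ c₁) {n m : ℕ} (hn : 1 ≤ n) (hm : 1 ≤ m)
    {X : Set (Fin n → M)} {Y : Set (Fin m → M)} (hX0 : X.Nonempty)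
    {f : (Fin n → M) → (Fin m → M)} (hX : Def L X) (hY : Def L Y)
    (hf : Def L {v : Fin n ⊕ Fin m → M | v ∘ Sum.inl ∈ X ∧ f (v ∘ Sum.inl) = v ∘ Sum.inr})
    (hfs : f '' X = Y) (hfi : Set.InjOn f X) : h n X = h m Y := by
  classical
  obtain ⟨r, P, d, μ, h1, h2, h3, h4, h5, h6⟩ := H.fub n m hn hm X Y f hX hY hf hfs
  have h7 : ∀ i, d i = 0 ∧ μ i = 1 := by
    intro i
    obtain ⟨y, hy⟩ := h2 i
    have h8 := h5 i y hy
    have hyY : y ∈ Y := by
      rw [← h4]
      exact Set.mem_iUnion.2 ⟨i, hy⟩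
    rw [← hfs] at hyY
    obtain ⟨x, hx, rfl⟩ := hyY
    have h9 : {x' | x' ∈ X ∧ f x' = f x} = {x} := by
      ext x'
      constructor
      · rintro ⟨h10, h11⟩
        exact hfi h10 hx h11
      · rintro rfl
        exact ⟨hx, rfl⟩
    rw [h9, H.fin n hn _ (Set.finite_singleton x), Set.ncard_singleton] at h8
    simp only [Nat.cast_one, Prod.mk.injEq] at h8
    exact ⟨h8.1.symm, h8.2.symm⟩
  have hr : (Finset.univ : Finset (Fin r)).Nonempty := by
    obtain ⟨x, hx⟩ := hX0
    have : f x ∈ ⋃ i, P i := by rw [h4, ← hfs]; exact ⟨x, hx, rfl⟩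
    obtain ⟨i, _⟩ := Set.mem_iUnion.1 this
    exact ⟨i, Finset.mem_univ _⟩
  have h8 := H.iUnion hc hm P h1 h2 h3 Finset.univ hr
  have h9 : (⋃ i ∈ (Finset.univ : Finset (Fin r)), P i) = Y := by
    rw [← h4]; simp
  rw [h9] at h8
  rw [h8, h6]
  unfold top
  simp only [(h7 _).1, (h7 _).2, zero_add, one_mul]

end

/-! ### Models of the theory -/

section

variable (α : Type)

/-- the term `1` -/
def tOne {α : Type} : Lang.Term α := Term.func Fn.one Fin.elim0

/-- the term `s + t` -/
def tAdd {α : Type} (s t : Lang.Term α) : Lang.Term α := Term.func Fn.add ![s, t]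

variable {M : Type u} [Lang.Structure M]

/-- addition of the model -/
def add (a b : M) : M := Structure.funMap (L := Lang) Fn.add ![a, b]

/-- the element one of the model -/
def one : M := Structure.funMap (L := Lang) Fn.one Fin.elim0

theorem realize_tOne {α : Type} (v : α → M) : (tOne : Lang.Term α).realize v = one := by
  unfold tOne one
  rw [Term.realize_func]
  congr 1
  ext i
  exact i.elim0

theorem realize_tAdd {α : Type} (v : α → M) (s t : Lang.Term α) :
    (tAdd s t).realize v = add (s.realize v) (t.realize v) := by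
  unfold tAdd add
  rw [Term.realize_func]
  congr 1
  ext i
  fin_cases i <;> rfl

end

theorem add_int (a b : ℤ) : add a b = a + b := rfl

theorem one_int : (one : ℤ) = 1 := rfl

/-- `x + x = y + y → x = y` -/
def s1 : Lang.Sentence :=
  ∀' ∀' ((Term.bdEqual (tAdd (&0) (&0)) (tAdd (&1) (&1))).imp (Term.bdEqual (&0) (&1)))

/-- every element is `y + y` or `y + y + 1` -/
def s2 : Lang.Sentence :=
  ∀' ∃' ((Term.bdEqual (tAdd (&1) (&1)) (&0)) ⊔ (Term.bdEqual (tAdd (tAdd (&1) (&1)) tOne) (&0)))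

/-- `x + x ≠ y + y + 1` -/
def s3 : Lang.Sentence :=
  ∀' ∀' ∼(Term.bdEqual (tAdd (&0) (&0)) (tAdd (tAdd (&1) (&1)) tOne))

/-- `1 ≠ 1 + 1` -/
def s4 : Lang.Sentence := ∼(Term.bdEqual tOne (tAdd tOne tOne))

/-- `x + 1 = y + 1 → x = y` -/
def s5 : Lang.Sentence :=
  ∀' ∀' ((Term.bdEqual (tAdd (&0) tOne) (tAdd (&1) tOne)).imp (Term.bdEqual (&0) (&1)))

theorem real1 {M : Type u} [Lang.Structure M] :
    M ⊨ s1 ↔ ∀ x y : M, add x x = add y y → x = y := by
  simp [s1, Sentence.Realize, Formula.Realize, BoundedFormula.realize_bdEqual, realize_tAdd,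
    Fin.snoc]

theorem real2 {M : Type u} [Lang.Structure M] :
    M ⊨ s2 ↔ ∀ x : M, ∃ y : M, add y y = x ∨ add (add y y) one = x := by
  simp [s2, Sentence.Realize, Formula.Realize, BoundedFormula.realize_bdEqual, realize_tAdd,
    realize_tOne, Fin.snoc]

theorem real3 {M : Type u} [Lang.Structure M] :
    M ⊨ s3 ↔ ∀ x y : M, ¬ add x x = add (add y y) one := by
  simp [s3, Sentence.Realize, Formula.Realize, BoundedFormula.realize_bdEqual, realize_tAdd,
    realize_tOne, Fin.snoc]

theorem real4 {M : Type u} [Lang.Structure M] :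
    M ⊨ s4 ↔ ¬ (one : M) = add one one := by
  simp [s4, Sentence.Realize, Formula.Realize, BoundedFormula.realize_bdEqual, realize_tAdd,
    realize_tOne]

theorem real5 {M : Type u} [Lang.Structure M] :
    M ⊨ s5 ↔ ∀ x y : M, add x one = add y one → x = y := by
  simp [s5, Sentence.Realize, Formula.Realize, BoundedFormula.realize_bdEqual, realize_tAdd,
    realize_tOne, Fin.snoc]

theorem int1 : (ℤ : Type) ⊨ s1 := by
  rw [real1]; intro x y hxy; simp only [add_int] at hxy; omega

theorem int2 : (ℤ : Type) ⊨ s2 := by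
  rw [real2]
  intro x
  simp only [add_int, one_int]
  exact ⟨x / 2, by omega⟩

theorem int3 : (ℤ : Type) ⊨ s3 := by
  rw [real3]; intro x y; simp only [add_int, one_int]; omega

theorem int4 : (ℤ : Type) ⊨ s4 := by
  rw [real4]; simp only [add_int, one_int]; norm_num

theorem int5 : (ℤ : Type) ⊨ s5 := by
  rw [real5]; intro x y hxy; simp only [add_int, one_int] at hxy; omega

/-- the graph of a function given by a term, on the whole universe, is definable -/
theorem def_graph {M : Type u} [Lang.Structure M] (t : Lang.Term (Fin 1)) :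
    Def Lang {v : Fin 1 ⊕ Fin 1 → M | v ∘ Sum.inl ∈ (Set.univ : Set (Fin 1 → M)) ∧
      (fun _ : Fin 1 => t.realize (v ∘ Sum.inl)) = v ∘ Sum.inr} := by
  refine Set.Definable.mono (A := ∅) ?_ (Set.empty_subset _)
  rw [Set.empty_definable_iff]
  refine ⟨(t.relabel Sum.inl).equal (Term.var (Sum.inr 0)), ?_⟩
  ext v
  simp only [Set.mem_univ, true_and, Set.mem_ofPred_eq, Formula.realize_equal, Term.realize_relabel,
    Term.realize_var, funext_iff, Function.comp]
  constructor
  · intro h; exact h 0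
  · intro h i
    rw [Subsingleton.elim i 0]; exact h

theorem main (M : Type u) [Lang.Structure M] (hM : M ⊨ Lang.completeTheory ℤ) :
    ¬ MSMeasurable Lang M := by
  rintro ⟨h, h0, -, h2, h3⟩
  have H : Good Lang M h := ⟨h0, h2, h3⟩
  have tr : ∀ φ : Lang.Sentence, (ℤ : Type) ⊨ φ → M ⊨ φ := fun φ hφ =>
    hM.realize_of_mem φ ((mem_completeTheory).2 hφ)
  have a1 := real1.1 (tr _ int1)
  have a2 := real2.1 (tr _ int2)
  have a3 := real3.1 (tr _ int3)
  have a4 := real4.1 (tr _ int4)
  have a5 := real5.1 (tr _ int5)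
  have hne : (one : M) ≠ add one one := a4
  let f : (Fin 1 → M) → (Fin 1 → M) := fun x _ => add (x 0) (x 0)
  let g : (Fin 1 → M) → (Fin 1 → M) := fun x _ => add (add (x 0) (x 0)) one
  have hX : Def Lang (Set.univ : Set (Fin 1 → M)) := Set.definable_univ
  have hf : Def Lang {v : Fin 1 ⊕ Fin 1 → M | v ∘ Sum.inl ∈ (Set.univ : Set (Fin 1 → M)) ∧
      f (v ∘ Sum.inl) = v ∘ Sum.inr} := by
    have := def_graph (M := M) (tAdd (Term.var 0) (Term.var 0))
    simpa only [realize_tAdd, Term.realize_var] using this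
  have hg : Def Lang {v : Fin 1 ⊕ Fin 1 → M | v ∘ Sum.inl ∈ (Set.univ : Set (Fin 1 → M)) ∧
      g (v ∘ Sum.inl) = v ∘ Sum.inr} := by
    have := def_graph (M := M) (tAdd (tAdd (Term.var 0) (Term.var 0)) tOne)
    simpa only [realize_tAdd, Term.realize_var, realize_tOne] using this
  have himg : ∀ F : (Fin 1 → M) → (Fin 1 → M),
      Def Lang {v : Fin 1 ⊕ Fin 1 → M | v ∘ Sum.inl ∈ (Set.univ : Set (Fin 1 → M)) ∧
        F (v ∘ Sum.inl) = v ∘ Sum.inr} → Def Lang (F '' Set.univ) := by
    intro F hF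
    have h1 := hF.preimage_comp (Sum.swap : Fin 1 ⊕ Fin 1 → Fin 1 ⊕ Fin 1)
    have h2 := Set.Definable.exists_of_finite h1
    convert h2 using 1
    ext y
    simp only [Set.mem_image, Set.mem_univ, true_and, Set.mem_ofPred_eq, Set.mem_preimage]
    constructor
    · rintro ⟨x, rfl⟩
      exact ⟨x, rfl⟩
    · rintro ⟨x, hx⟩
      exact ⟨x, hx⟩
  have hfi : Set.InjOn f Set.univ := by
    intro x _ y _ hxy
    ext i
    rw [Subsingleton.elim i 0]
    exact a1 _ _ (congrFun hxy 0)
  have hgi : Set.InjOn g Set.univ := by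
    intro x _ y _ hxy
    ext i
    rw [Subsingleton.elim i 0]
    exact a1 _ _ (a5 _ _ (congrFun hxy 0))
  have b1 := H.bij hne le_rfl le_rfl ⟨fun _ => one, Set.mem_univ _⟩ hX (himg f hf) hf rfl hfi
  have b2 := H.bij hne le_rfl le_rfl ⟨fun _ => one, Set.mem_univ _⟩ hX (himg g hg) hg rfl hgi
  have b3 := H.add hne le_rfl (himg f hf) (himg g hg) ?_ ⟨_, fun _ => one, Set.mem_univ _, rfl⟩
    ⟨_, fun _ => one, Set.mem_univ _, rfl⟩
  · have b4 : f '' Set.univ ∪ g '' Set.univ = (Set.univ : Set (Fin 1 → M)) := by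
      ext y
      simp only [Set.mem_union, Set.mem_image, Set.mem_univ, true_and, iff_true]
      obtain ⟨x, hx | hx⟩ := a2 (y 0)
      · left
        exact ⟨fun _ => x, by ext i; rw [Subsingleton.elim i 0]; exact hx⟩
      · right
        exact ⟨fun _ => x, by ext i; rw [Subsingleton.elim i 0]; exact hx⟩
    rw [b4, ← b1, ← b2] at b3
    have b5 : (h 1 (Set.univ : Set (Fin 1 → M))).2 = 0 := by
      have := congrArg Prod.snd b3
      simp only [comb, lt_irrefl, if_false] at this
      linarith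
    -- but the measure of the universe is positive
    let c : Fin 1 → M := fun _ => one
    have hc : Def Lang ({c} : Set (Fin 1 → M)) := def_singleton c
    have b6 := H.add hne le_rfl hc hc.compl (disjoint_compl_right) ⟨c, rfl⟩
      ⟨fun _ => add one one, fun e => hne ((congrFun e 0).symm)⟩
    rw [Set.union_compl_self, H.fin 1 le_rfl _ (Set.finite_singleton c),
      Set.ncard_singleton] at b6
    have b7 := H.pos 1 le_rfl _ hc.compl
    rw [b6] at b5
    unfold comb at b5
    simp only [Nat.cast_one] at b5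
    split_ifs at b5 with c1 c2
    · rcases b7 with b7 | b7
      · linarith
      · rw [b7] at c1
        simp at c1
    · simp at b5
    · simp only at b5
      rcases b7 with b7 | b7
      · linarith
      · rw [b7] at b5
        simp at b5
  · rw [Set.disjoint_left]
    rintro y ⟨x, -, rfl⟩ ⟨z, -, hz⟩
    exact a3 _ _ (congrFun hz 0).symm

/-- No model of the complete theory of `(ℤ; +, -, 1, (P_m), (U_{p,l}))` is MS-measurable. -/
theorem result : ∀ (M : Type u) [Lang.Structure M], M ⊨ Lang.completeTheory ℤ →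
    ¬ MSMeasurable Lang M :=
  fun M _ hM => main M hM

end Pool.Agent.Results.MP_c6a6a6_lc.NotMeasurable
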